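import Mathlib
import Pool.Agent.Results.MP_8a2df8_gt.WeakProductCompact
import Pool.Agent.Results.MP_e70507_gt.CompactFrechet

/-!
# The product of a Grothendieck space and a compact space is a Grothendieck space

A Hausdorff space `Z` is hereditarily a g-space iff it is a g-space all of whose compact subspaces
are Frechet-Urysohn.  For `Z = C_p(X)` both halves pass from `X` to `X × K`.
-/

set_option autoImplicit false

namespace Pool.Agent.Results.MP_8a2df8_gt.ProductCompact

open Filter Topology Set

universe u v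

/-- `C_p(X)`: the continuous real functions on `X` with the topology of pointwise convergence
(the subspace topology from the product `X → ℝ`). -/
abbrev Cp (X : Type u) [TopologicalSpace X] : Type u := {f : X → ℝ // Continuous f}

/-- `A` is countably compact in `Z`: each infinite subset of `A` has an accumulation point in `Z`. -/
def CountablyCompactIn {Z : Type u} [TopologicalSpace Z] (A : Set Z) : Prop :=
  ∀ B : Set Z, B ⊆ A → B.Infinite → ∃ z : Z, AccPt z (𝓟 B)

/-- `Z` is a g-space: `closure A` is compact for every `A` that is countably compact in `Z`. -/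
def GSpace (Z : Type u) [TopologicalSpace Z] : Prop :=
  ∀ A : Set Z, CountablyCompactIn A → IsCompact (closure A)

/-- `X` is Grothendieck: every subspace of `C_p(X)` is a g-space. -/
def Grothendieck (X : Type u) [TopologicalSpace X] : Prop := ∀ S : Set (Cp X), GSpace S

section general

variable {Z : Type u} [TopologicalSpace Z]

/-- compact subspaces of a hereditarily g-space are Frechet-Urysohn -/
theorem frechet_of_hereditary [T2Space Z] (h : ∀ S : Set Z, GSpace S) (K : Set Z)
    (hK : IsCompact K) : FrechetUrysohnSpace K := by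
  refine ⟨fun s a ha => ?_⟩
  by_contra hna
  have has : a ∉ s := fun h => hna (subset_seqClosure h)
  -- the subspace
  let S : Set Z := K \ {a.1}
  let A : Set S := {x | ∃ y ∈ s, y.1 = x.1}
  have hA : CountablyCompactIn A := by
    intro B hBA hB
    by_contra hno
    push Not at hno
    obtain ⟨b⟩ : Nonempty (ℕ ↪ B) := ⟨hB.natEmbedding B⟩
    have hb : ∀ n, ∃ y ∈ s, y.1 = (b n).1.1 := fun n => hBA (b n).2
    choose y hy hyb using hb
    apply hna
    refine ⟨y, hy, ?_⟩
    rw [tendsto_subtype_rng]
    rw [tendsto_def]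
    intro U hU
    obtain ⟨V, hVU, hVo, haV⟩ := mem_nhds_iff.1 hU
    by_contra hcon
    have hinf : {n : ℕ | (y n).1 ∉ V}.Infinite := by
      intro hfin
      apply hcon
      rw [mem_atTop_sets]
      obtain ⟨N, hN⟩ := hfin.bddAbove
      refine ⟨N + 1, fun n hn => ?_⟩
      apply hVU
      by_contra hnV
      have := hN hnV
      omega
    have hinj : Function.Injective (fun n => (y n).1) := by
      intro m n hmn
      have h1 : (b m).1.1 = (b n).1.1 := by rw [← hyb, ← hyb]; exact hmn
      exact b.injective (Subtype.ext (Subtype.ext h1))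
    have hinf2 : ((fun n => (y n).1) '' {n : ℕ | (y n).1 ∉ V}).Infinite :=
      hinf.image hinj.injOn
    have hsub : ((fun n => (y n).1) '' {n : ℕ | (y n).1 ∉ V}) ⊆ K \ V := by
      rintro _ ⟨n, hn, rfl⟩
      exact ⟨(y n).2, hn⟩
    have hKV : IsCompact (K \ V) := hK.diff hVo
    obtain ⟨z, hz, hacc⟩ := hinf2.exists_accPt_of_subset_isCompact hKV hsub
    have hza : z ≠ a.1 := fun h => hz.2 (h ▸ haV)
    refine hno ⟨z, hz.1, hza⟩ ?_
    rw [accPt_iff_nhds] at hacc ⊢
    intro W hW
    rw [mem_nhds_subtype] at hW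
    obtain ⟨W', hW', hWW⟩ := hW
    obtain ⟨w, ⟨hw1, n, -, hn⟩, hw2⟩ := hacc W' hW'
    refine ⟨(b n).1, ⟨hWW ?_, (b n).2⟩, ?_⟩
    · show (b n).1.1 ∈ W'
      rw [← hyb]
      have : (y n).1 = w := hn
      rw [this]
      exact hw1
    · intro heq
      apply hw2
      have h1 : (b n).1.1 = z := congrArg Subtype.val heq
      rw [← hyb] at h1
      rw [← h1]
      exact hn.symm
  have hc := h S A hA
  have hc2 : IsCompact ((fun x : S => x.1) '' closure A) := hc.image continuous_subtype_val
  have hcl := hc2.isClosed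
  have hmem : a.1 ∈ closure ((fun x : K => x.1) '' s) :=
    closure_subtype.1 ha
  have hsub : ((fun x : K => x.1) '' s) ⊆ ((fun x : S => x.1) '' closure A) := by
    rintro _ ⟨y, hy, rfl⟩
    have hne : y.1 ≠ a.1 := by
      intro h
      exact has ((Subtype.ext h : y = a) ▸ hy)
    exact ⟨⟨y.1, y.2, hne⟩, subset_closure ⟨y, hy, rfl⟩, rfl⟩
  obtain ⟨x, -, hx⟩ := closure_minimal hsub hcl hmem
  exact x.2.2 hx

/-- a hereditarily g-space is a g-space -/
theorem gspace_of_hereditary (h : ∀ S : Set Z, GSpace S) : GSpace Z := by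
  intro A hA
  have hA' : CountablyCompactIn {x : (univ : Set Z) | x.1 ∈ A} := by
    intro B hB hBi
    have hBi' : (Subtype.val '' B).Infinite := hBi.image Subtype.val_injective.injOn
    obtain ⟨z, hz⟩ := hA (Subtype.val '' B) (by rintro _ ⟨x, hx, rfl⟩; exact hB hx) hBi'
    refine ⟨⟨z, trivial⟩, ?_⟩
    rw [accPt_iff_nhds] at hz ⊢
    intro W hW
    rw [mem_nhds_subtype] at hW
    obtain ⟨W', hW', hWW⟩ := hW
    obtain ⟨w, ⟨hw1, x, hx, rfl⟩, hw2⟩ := hz W' hW'
    exact ⟨x, ⟨hWW hw1, hx⟩, fun h => hw2 (congrArg Subtype.val h)⟩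
  have hc := (h univ _ hA').image continuous_subtype_val
  have : Subtype.val '' closure {x : (univ : Set Z) | x.1 ∈ A} = closure A := by
    ext z
    constructor
    · rintro ⟨x, hx, rfl⟩
      rw [closure_subtype] at hx
      refine closure_mono ?_ hx
      rintro _ ⟨y, hy, rfl⟩
      exact hy
    · intro hz
      refine ⟨⟨z, trivial⟩, ?_, rfl⟩
      rw [closure_subtype]
      refine closure_mono ?_ hz
      intro y hy
      exact ⟨⟨y, trivial⟩, hy, rfl⟩
  rwa [this] at hc

/-- a Hausdorff g-space all of whose compact subspaces are Frechet-Urysohn is hereditarily a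
g-space -/
theorem hereditary_of [T2Space Z] (hg : GSpace Z)
    (hF : ∀ K : Set Z, IsCompact K → FrechetUrysohnSpace K) (S : Set Z) : GSpace S := by
  intro A hA
  have hA' : CountablyCompactIn (Subtype.val '' A) := by
    intro B hB hBi
    have hBi' : (Subtype.val ⁻¹' B : Set S).Infinite := by
      have hsur : B ⊆ Subtype.val '' (Subtype.val ⁻¹' B : Set S) := by
        intro b hb
        obtain ⟨a, -, rfl⟩ := hB hb
        exact ⟨a, hb, rfl⟩
      exact Set.Infinite.of_image _ (hBi.mono hsur)
    obtain ⟨z, hz⟩ := hA (Subtype.val ⁻¹' B) (by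
      intro x hx
      obtain ⟨a, ha, hax⟩ := hB hx
      exact (Subtype.ext hax : a = x) ▸ ha) hBi'
    refine ⟨z.1, ?_⟩
    rw [accPt_iff_nhds] at hz ⊢
    intro W hW
    obtain ⟨w, ⟨hw1, hw2⟩, hw3⟩ := hz (Subtype.val ⁻¹' W)
      (continuous_subtype_val.continuousAt.preimage_mem_nhds hW)
    exact ⟨w.1, ⟨hw1, hw2⟩, fun h => hw3 (Subtype.ext h)⟩
  have hK := hg _ hA'
  have hKS : closure (Subtype.val '' A) ⊆ S := by
    intro x hx
    have hFU := hF _ hK
    have hx' : (⟨x, hx⟩ : closure (Subtype.val '' A)) ∈
        closure {y : closure (Subtype.val '' A) | y.1 ∈ Subtype.val '' A} := by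
      rw [closure_subtype]
      refine closure_mono ?_ hx
      intro y hy
      exact ⟨⟨y, subset_closure hy⟩, hy, rfl⟩
    obtain ⟨a, ha, hlim⟩ := mem_closure_iff_seq_limit.1 hx'
    have hlim' : Tendsto (fun n => (a n).1) atTop (𝓝 x) :=
      (continuous_subtype_val.tendsto _).comp hlim
    by_cases hfin : (range fun n => (a n).1).Finite
    · have hcl : IsClosed (range fun n => (a n).1) := hfin.isClosed
      obtain ⟨n, hn⟩ := hcl.mem_of_tendsto hlim' (Eventually.of_forall fun n => ⟨n, rfl⟩)
      obtain ⟨s, -, hs⟩ := ha n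
      have hn' : (a n).1 = x := hn
      rw [← hn', ← hs]
      exact s.2
    · -- use countable compactness in `S`
      have hBi' : (Subtype.val ⁻¹' (range fun n => (a n).1) : Set S).Infinite := by
        have hsur : (range fun n => (a n).1) ⊆
            Subtype.val '' (Subtype.val ⁻¹' (range fun n => (a n).1) : Set S) := by
          rintro _ ⟨n, rfl⟩
          obtain ⟨s, -, hs⟩ := ha n
          exact ⟨s, ⟨n, hs.symm⟩, hs⟩
        exact Set.Infinite.of_image _ (Set.Infinite.mono hsur hfin)
      obtain ⟨z, hz⟩ := hA _ (by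
        rintro y ⟨n, hn⟩
        obtain ⟨s, hs, hsn⟩ := ha n
        have : s = y := Subtype.ext (hsn.trans hn)
        exact this ▸ hs) hBi'
      have hzx : z.1 = x := by
        by_contra hne
        obtain ⟨U, V, hU, hV, hzU, hxV, hUV⟩ := t2_separation hne
        have hev := hlim' (hV.mem_nhds hxV)
        rw [mem_map, mem_atTop_sets] at hev
        obtain ⟨N, hN⟩ := hev
        have hfinset : ((fun n => (a n).1) '' (Set.Iio N) \ {z.1}).Finite :=
          ((Set.finite_Iio N).image _).sdiff
        have hop : IsOpen (U \ ((fun n => (a n).1) '' (Set.Iio N) \ {z.1})) :=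
          hU.sdiff hfinset.isClosed
        rw [accPt_iff_nhds] at hz
        obtain ⟨w, ⟨hw1, n, hn⟩, hw3⟩ := hz (Subtype.val ⁻¹' (U \ ((fun n => (a n).1) '' (Set.Iio N) \ {z.1})))
          (continuous_subtype_val.continuousAt.preimage_mem_nhds
            (hop.mem_nhds ⟨hzU, fun h => h.2 rfl⟩))
        have hn' : (a n).1 = w.1 := hn
        by_cases hnN : n < N
        · apply hw1.2
          exact ⟨⟨n, hnN, hn'⟩, fun h => hw3 (Subtype.ext h)⟩
        · have h1 : (a n).1 ∈ V := hN n (not_lt.1 hnN)
          rw [hn'] at h1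
          exact (Set.disjoint_left.1 hUV) hw1.1 h1
      rw [← hzx]
      exact z.2
  have heq : closure A = Subtype.val ⁻¹' (closure (Subtype.val '' A)) := by
    ext x
    rw [closure_subtype]
    rfl
  rw [heq]
  refine Topology.IsEmbedding.subtypeVal.isInducing.isCompact_preimage' hK ?_
  rw [Subtype.range_coe]
  exact hKS

end general

/-- If `X` is a Grothendieck space and `K` is compact, then `X × K` is a Grothendieck space. -/
theorem result : ∀ (X : Type u) [TopologicalSpace X] [T35Space X], Grothendieck X →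
    ∀ (K : Type v) [TopologicalSpace K] [CompactSpace K] [T2Space K], Grothendieck (X × K) := by
  intro X _ _ hX K _ _ _
  have hF : ∀ S : Set (Cp (X × K)), IsCompact S → FrechetUrysohnSpace S :=
    MP_e70507_gt.CompactFrechet.result X (fun S hS => frechet_of_hereditary hX S hS) K
  have hG : GSpace (Cp (X × K)) :=
    WeakProductCompact.result X (gspace_of_hereditary hX) K
  exact fun S => hereditary_of hG hF S

end Pool.Agent.Results.MP_8a2df8_gt.ProductCompact
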